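import Pool.Agent.Helper57.SJ.Stmts2
import Pool.Agent.Helper59.SJ.TLT

/-! Row TLK: the sum over the primes in `(z, z^6]` at all points of almost all intervals, with an
exceptional set of measure `T H^{-B}`. -/

set_option autoImplicit false

namespace Pool.Agent.Helper70.SJ

open MeasureTheory Set Filter Topology
open Pool.Agent.Helper57.QZ (zA Pz)
open Pool.Agent.Helper57.QZ.TL47 (sum_sq sum_abs)
open Pool.Agent.Helper57.SJ
open Pool.Agent.Helper59.SJ (coef)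

/-- the numerical estimate -/
theorem numericK {ε A B η L H B0 G C' : ℝ} {z k : ℕ} (hε : 0 < ε) (hε1 : ε < 1) (hA : 3 ≤ A)
    (hAε : 8 ≤ A * ε) (hη : 0 < η) (hB0 : 0 ≤ B0) (hC' : 0 < C')
    (hG : G = max 1 (4 * C' ^ 2 / η ^ 2)) (hL4 : 5 ≤ L)
    (hℓ1 : 1 ≤ Real.log L) (hℓG : Real.log G ≤ Real.log L) (hLB : 2 * B0 / η ^ 2 ≤ L)
    (hL5 : 96 * L ^ (38 * A + 1) ≤ Real.exp (L / 2))
    (hL6 : 48 * L ≤ Real.exp (3 * ε / 800 * L))
    (hz_le : (z : ℝ) ≤ L ^ A) (hz_ge : L ^ A / 2 ≤ z) (hH : 0 < H)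
    (hHB : (H + 2) * H ^ B ≤ 2 * Real.exp (ε / 800 * L))
    (hk : k = ⌈L / (50 * A * Real.log L)⌉₊ + 1) :
    (H + 2) * (1 + (4 * k + 2) * (Real.exp L * (k.factorial * (B0 * (z : ℝ) ^ (-(ε / 2))) ^ k) +
      2 * ((z : ℝ) ^ 6) ^ k * (2 * C' * (z : ℝ) ^ 6) ^ (2 * k)) / η ^ (2 * k)) ≤
      Real.exp L * H ^ (-B) := by
  obtain ⟨ℓ, hℓ⟩ : ∃ ℓ : ℝ, ℓ = Real.log L := ⟨_, rfl⟩
  rw [← hℓ] at hℓ1 hℓG hk
  have hL0 : 0 < L := by linarith
  have hLe : Real.exp ℓ = L := by rw [hℓ, Real.exp_log hL0]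
  have hA0 : 0 < A := by linarith
  have hℓ0 : 0 < ℓ := by linarith
  have hz0 : (0 : ℝ) < z := lt_of_lt_of_le (by positivity) hz_ge
  have hG1 : 1 ≤ G := by rw [hG]; exact le_max_left _ _
  have hx0 : 0 ≤ L / (50 * A * ℓ) := by positivity
  have hk_ge : L / (50 * A * ℓ) + 1 ≤ k := by
    have := Nat.le_ceil (L / (50 * A * ℓ))
    rw [hk]
    push_cast
    linarith
  have hk_le : (k : ℝ) ≤ L / (50 * A * ℓ) + 2 := by
    have := Nat.ceil_lt_add_one hx0
    rw [hk]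
    push_cast
    linarith
  have hkL : (k : ℝ) ≤ L := by
    have h1 : L / (50 * A * ℓ) ≤ L / 50 := by
      refine div_le_div_of_nonneg_left hL0.le (by norm_num) ?_
      have h2 : 3 * 1 ≤ A * ℓ := mul_le_mul hA hℓ1 (by norm_num) (by linarith)
      linarith
    linarith
  have hk1 : (1 : ℝ) ≤ k := by linarith
  -- lower bound of the exponent
  have hklow : ε / 200 * L ≤ k * (A * ε / 4 * ℓ) := by
    have h1 := mul_le_mul_of_nonneg_right hk_ge (by positivity : 0 ≤ A * ε / 4 * ℓ)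
    have h2 : (L / (50 * A * ℓ) + 1) * (A * ε / 4 * ℓ) = ε / 200 * L + A * ε / 4 * ℓ := by
      field_simp
      ring
    have h3 : 0 ≤ A * ε / 4 * ℓ := by positivity
    linarith
  have hkup : k * (19 * A * ℓ) ≤ 19 / 50 * L + 38 * A * ℓ := by
    have h1 := mul_le_mul_of_nonneg_right hk_le (by positivity : 0 ≤ 19 * A * ℓ)
    have h2 : (L / (50 * A * ℓ) + 2) * (19 * A * ℓ) = 19 / 50 * L + 38 * A * ℓ := by
      field_simp
      ring
    linarith
  have hη2 : 0 < η ^ (2 * k) := by positivity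
  -- the diagonal
  have hQ1 : (k.factorial * (B0 * (z : ℝ) ^ (-(ε / 2))) ^ k) / η ^ (2 * k) ≤
      Real.exp (-(ε / 200 * L)) := by
    have h1 : (k.factorial : ℝ) ≤ (k : ℝ) ^ k := by exact_mod_cast Nat.factorial_le_pow k
    have h3 : (z : ℝ) ^ (-(ε / 2)) ≤ 2 * Real.exp (-(A * ε / 2 * ℓ)) := by
      have h31 : (z : ℝ) ^ (-(ε / 2)) ≤ (L ^ A / 2) ^ (-(ε / 2)) :=
        Real.rpow_le_rpow_of_nonpos (by positivity) hz_ge (by linarith)
      have h32 : (L ^ A / 2) ^ (-(ε / 2)) = Real.exp (-(A * ε / 2 * ℓ)) * 2 ^ (ε / 2) := by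
        rw [Real.div_rpow (by positivity) (by norm_num), ← Real.rpow_mul hL0.le,
          Real.rpow_neg (by norm_num : (0 : ℝ) ≤ 2), div_inv_eq_mul]
        congr 1
        rw [Real.rpow_def_of_pos hL0, hℓ]
        congr 1
        ring
      have h35 : (2 : ℝ) ^ (ε / 2) ≤ 2 := by
        calc (2 : ℝ) ^ (ε / 2) ≤ (2 : ℝ) ^ (1 : ℝ) :=
              Real.rpow_le_rpow_of_exponent_le (by norm_num) (by linarith)
          _ = 2 := Real.rpow_one 2
      rw [h32] at h31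
      refine h31.trans ?_
      rw [mul_comm]
      exact mul_le_mul_of_nonneg_right h35 (Real.exp_pos _).le
    have h4 : (k : ℝ) * (B0 * (z : ℝ) ^ (-(ε / 2))) / η ^ 2 ≤ Real.exp (-(A * ε / 4 * ℓ)) := by
      have h41 : (k : ℝ) * (B0 * (z : ℝ) ^ (-(ε / 2))) ≤
          L * (B0 * (2 * Real.exp (-(A * ε / 2 * ℓ)))) :=
        mul_le_mul hkL (mul_le_mul_of_nonneg_left h3 hB0) (by positivity) hL0.le
      have h42 : (k : ℝ) * (B0 * (z : ℝ) ^ (-(ε / 2))) / η ^ 2 ≤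
          (2 * B0 / η ^ 2) * (L * Real.exp (-(A * ε / 2 * ℓ))) := by
        rw [div_le_iff₀ (by positivity)]
        refine h41.trans (le_of_eq ?_)
        field_simp
      refine h42.trans ?_
      have h43 : (2 * B0 / η ^ 2) * (L * Real.exp (-(A * ε / 2 * ℓ))) ≤
          L * (L * Real.exp (-(A * ε / 2 * ℓ))) :=
        mul_le_mul_of_nonneg_right hLB (by positivity)
      refine h43.trans ?_
      have h44 : L * (L * Real.exp (-(A * ε / 2 * ℓ))) =
          Real.exp (ℓ + (ℓ + -(A * ε / 2 * ℓ))) := by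
        rw [Real.exp_add, Real.exp_add, hLe]
      rw [h44]
      apply Real.exp_le_exp.mpr
      have : 2 * ℓ ≤ A * ε / 4 * ℓ := mul_le_mul_of_nonneg_right (by linarith) hℓ0.le
      linarith
    calc (k.factorial * (B0 * (z : ℝ) ^ (-(ε / 2))) ^ k) / η ^ (2 * k)
        ≤ ((k : ℝ) ^ k * (B0 * (z : ℝ) ^ (-(ε / 2))) ^ k) / η ^ (2 * k) := by
          gcongr
      _ = ((k : ℝ) * (B0 * (z : ℝ) ^ (-(ε / 2))) / η ^ 2) ^ k := by
          rw [← mul_pow, div_pow, ← pow_mul]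
      _ ≤ (Real.exp (-(A * ε / 4 * ℓ))) ^ k := pow_le_pow_left₀ (by positivity) h4 k
      _ = Real.exp (-(k * (A * ε / 4 * ℓ))) := by
          rw [← Real.exp_nat_mul]
          congr 1
          ring
      _ ≤ Real.exp (-(ε / 200 * L)) := Real.exp_le_exp.mpr (neg_le_neg hklow)
  -- the other part
  have hQ2 : ((z : ℝ) ^ 6) ^ k * (2 * C' * (z : ℝ) ^ 6) ^ (2 * k) / η ^ (2 * k) ≤
      Real.exp (19 / 50 * L + 38 * A * ℓ) := by
    have h1 : ((z : ℝ) ^ 6) ^ k * (2 * C' * (z : ℝ) ^ 6) ^ (2 * k) / η ^ (2 * k) =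
        (4 * C' ^ 2 / η ^ 2 * (z : ℝ) ^ 18) ^ k := by
      have e1 : (2 * C' * (z : ℝ) ^ 6) ^ (2 * k) = ((2 * C' * (z : ℝ) ^ 6) ^ 2) ^ k := by
        rw [← pow_mul]
      have e2 : η ^ (2 * k) = (η ^ 2) ^ k := by rw [← pow_mul]
      rw [e1, e2, ← mul_pow, ← div_pow]
      congr 1
      ring
    have h2 : 4 * C' ^ 2 / η ^ 2 * (z : ℝ) ^ 18 ≤ G * (L ^ A) ^ 18 := by
      have h21 : 4 * C' ^ 2 / η ^ 2 ≤ G := by rw [hG]; exact le_max_right _ _
      exact mul_le_mul h21 (pow_le_pow_left₀ hz0.le hz_le _) (by positivity) (by linarith)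
    have h3 : G * (L ^ A) ^ 18 = Real.exp (Real.log G + 18 * A * ℓ) := by
      rw [Real.exp_add, Real.exp_log (by linarith)]
      congr 1
      rw [← Real.rpow_natCast, ← Real.rpow_mul hL0.le, Real.rpow_def_of_pos hL0, hℓ]
      congr 1
      push_cast
      ring
    have h4 : Real.log G + 18 * A * ℓ ≤ 19 * A * ℓ := by
      have : 1 * ℓ ≤ A * ℓ := mul_le_mul_of_nonneg_right (by linarith) hℓ0.le
      linarith
    calc ((z : ℝ) ^ 6) ^ k * (2 * C' * (z : ℝ) ^ 6) ^ (2 * k) / η ^ (2 * k)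
        = (4 * C' ^ 2 / η ^ 2 * (z : ℝ) ^ 18) ^ k := h1
      _ ≤ (Real.exp (19 * A * ℓ)) ^ k := by
          refine pow_le_pow_left₀ (by positivity) ?_ k
          rw [h3] at h2
          exact h2.trans (Real.exp_le_exp.mpr h4)
      _ = Real.exp (k * (19 * A * ℓ)) := by rw [← Real.exp_nat_mul]
      _ ≤ Real.exp (19 / 50 * L + 38 * A * ℓ) := Real.exp_le_exp.mpr hkup
  have h4k : 4 * (k : ℝ) + 2 ≤ 6 * L := by linarith
  have hεL : ε / 800 * L ≤ 1 / 800 * L := by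
    refine mul_le_mul_of_nonneg_right ?_ hL0.le
    linarith
  obtain ⟨X, hX⟩ : ∃ X : ℝ, X = (H + 2) * H ^ B := ⟨_, rfl⟩
  rw [← hX] at hHB
  have hX0 : 0 < X := by rw [hX]; positivity
  -- the three parts
  have hp1 : X ≤ 1 / 4 * Real.exp L := by
    have h1 : 1 ≤ L ^ (38 * A + 1) := Real.one_le_rpow (by linarith) (by linarith)
    calc X ≤ 2 * Real.exp (ε / 800 * L) := hHB
      _ ≤ 2 * Real.exp (L / 2) := by
          have : Real.exp (ε / 800 * L) ≤ Real.exp (L / 2) := Real.exp_le_exp.mpr (by linarith)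
          linarith
      _ ≤ (1 / 4 * Real.exp (L / 2)) * Real.exp (L / 2) :=
          mul_le_mul_of_nonneg_right (by linarith) (Real.exp_pos _).le
      _ = 1 / 4 * Real.exp L := by
          rw [mul_assoc, ← Real.exp_add]
          congr 2
          ring
  have hp2 : X * (4 * k + 2) * (Real.exp L *
      ((k.factorial * (B0 * (z : ℝ) ^ (-(ε / 2))) ^ k) / η ^ (2 * k))) ≤
      1 / 4 * Real.exp L := by
    calc X * (4 * k + 2) * (Real.exp L *
        ((k.factorial * (B0 * (z : ℝ) ^ (-(ε / 2))) ^ k) / η ^ (2 * k)))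
        ≤ ((2 * Real.exp (ε / 800 * L)) * (6 * L)) *
            (Real.exp L * Real.exp (-(ε / 200 * L))) := by
          gcongr
      _ = 1 / 4 * (48 * L) * (Real.exp (ε / 800 * L) * Real.exp (-(ε / 200 * L))) *
            Real.exp L := by ring
      _ ≤ 1 / 4 * Real.exp (3 * ε / 800 * L) *
            (Real.exp (ε / 800 * L) * Real.exp (-(ε / 200 * L))) * Real.exp L := by
          gcongr
      _ = 1 / 4 * Real.exp L := by
          rw [mul_assoc (1 / 4 : ℝ), ← Real.exp_add, ← Real.exp_add]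
          have : 3 * ε / 800 * L + (ε / 800 * L + -(ε / 200 * L)) = 0 := by ring
          rw [this, Real.exp_zero, mul_one]
  have hp3 : X * (4 * k + 2) * (2 *
      (((z : ℝ) ^ 6) ^ k * (2 * C' * (z : ℝ) ^ 6) ^ (2 * k) / η ^ (2 * k))) ≤
      1 / 4 * Real.exp L := by
    have e1 : Real.exp (ε / 800 * L) * Real.exp (19 / 50 * L + 38 * A * ℓ) ≤
        Real.exp (L / 2) * Real.exp (38 * A * ℓ) := by
      rw [← Real.exp_add, ← Real.exp_add]
      apply Real.exp_le_exp.mpr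
      linarith
    calc X * (4 * k + 2) * (2 *
        (((z : ℝ) ^ 6) ^ k * (2 * C' * (z : ℝ) ^ 6) ^ (2 * k) / η ^ (2 * k)))
        ≤ ((2 * Real.exp (ε / 800 * L)) * (6 * L)) *
            (2 * Real.exp (19 / 50 * L + 38 * A * ℓ)) := by
          gcongr
      _ = 24 * L * (Real.exp (ε / 800 * L) * Real.exp (19 / 50 * L + 38 * A * ℓ)) := by ring
      _ ≤ 24 * L * (Real.exp (L / 2) * Real.exp (38 * A * ℓ)) :=
          mul_le_mul_of_nonneg_left e1 (by positivity)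
      _ = (1 / 4) * (96 * L ^ (38 * A + 1)) * Real.exp (L / 2) := by
          have : L ^ (38 * A + 1) = Real.exp (38 * A * ℓ) * L := by
            rw [Real.rpow_add hL0, Real.rpow_one, Real.rpow_def_of_pos hL0, hℓ]
            congr 2
            ring
          rw [this]
          ring
      _ ≤ (1 / 4) * Real.exp (L / 2) * Real.exp (L / 2) := by
          gcongr
      _ = 1 / 4 * Real.exp L := by
          rw [mul_assoc, ← Real.exp_add]
          congr 2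
          ring
  have hfin : (H + 2) * (1 + (4 * k + 2) * (Real.exp L *
      (k.factorial * (B0 * (z : ℝ) ^ (-(ε / 2))) ^ k) +
      2 * ((z : ℝ) ^ 6) ^ k * (2 * C' * (z : ℝ) ^ 6) ^ (2 * k)) / η ^ (2 * k)) * H ^ B =
      X + X * (4 * k + 2) * (Real.exp L *
        ((k.factorial * (B0 * (z : ℝ) ^ (-(ε / 2))) ^ k) / η ^ (2 * k))) +
      X * (4 * k + 2) * (2 *
        (((z : ℝ) ^ 6) ^ k * (2 * C' * (z : ℝ) ^ 6) ^ (2 * k) / η ^ (2 * k))) := by
    rw [hX]
    ring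
  rw [Real.rpow_neg hH.le, ← div_eq_mul_inv, le_div_iff₀ (by positivity), hfin]
  have : 0 < Real.exp L := Real.exp_pos _
  linarith

theorem st_TLK (hSUP : ST_SUP) : ST_TLK := by
  intro ε hε C η hC hη
  have hε0 : 0 < ε := hε.1
  have hε1 : ε < 1 := by linarith [hε.2]
  obtain ⟨C', hC'⟩ : ∃ C' : ℝ, C' = C * (1 + 2 / ε) := ⟨_, rfl⟩
  have hC'0 : 0 < C' := by rw [hC']; positivity
  obtain ⟨S0, hS0⟩ : ∃ S0 : ℝ, S0 = ∑' n : ℕ, (n : ℝ) ^ (-(1 + ε / 2 / 2)) := ⟨_, rfl⟩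
  have hS00 : 0 ≤ S0 := by rw [hS0]; exact tsum_nonneg fun n => by positivity
  obtain ⟨B0, hB0⟩ : ∃ B0 : ℝ, B0 = C' ^ 2 * (16 / (ε / 2) ^ 2) * S0 := ⟨_, rfl⟩
  have hB00 : 0 ≤ B0 := by rw [hB0]; positivity
  obtain ⟨G, hG⟩ : ∃ G : ℝ, G = max 1 (4 * C' ^ 2 / η ^ 2) := ⟨_, rfl⟩
  refine ⟨max 3 (8 / ε), le_max_left _ _, fun A hA B hB => ?_⟩
  have hA3 : 3 ≤ A := (le_max_left _ _).trans hA
  have hAε : 8 ≤ A * ε := by
    have := (le_max_right 3 (8 / ε)).trans hA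
    rwa [div_le_iff₀ hε0] at this
  obtain ⟨c, hc⟩ : ∃ c : ℝ, c = ε / (800 * (B + 1)) := ⟨_, rfl⟩
  have hc0 : 0 < c := by rw [hc]; positivity
  have hcB : c * (B + 1) = ε / 800 := by
    rw [hc]
    field_simp
  have hcB2 : c * 2 ≤ ε / 800 := by
    rw [← hcB]
    exact mul_le_mul_of_nonneg_left (by linarith) hc0.le
  refine ⟨c, ⟨hc0, by linarith⟩, ?_⟩
  -- the conditions on `L`
  have hlim : ∀ᶠ L : ℝ in atTop, 96 * L ^ (38 * A + 1) ≤ Real.exp (L / 2) := by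
    have h1 := (isLittleO_rpow_exp_pos_mul_atTop (38 * A + 1)
      (show (0 : ℝ) < 1 / 2 by norm_num)).bound
      (show (0 : ℝ) < 1 / 96 by norm_num)
    filter_upwards [h1, eventually_ge_atTop (1 : ℝ)] with L h2 h3
    rw [Real.norm_of_nonneg (by positivity), Real.norm_of_nonneg (Real.exp_pos _).le] at h2
    have h4 : (1 / 2 : ℝ) * L = L / 2 := by ring
    rw [h4] at h2
    linarith
  have hlim2 : ∀ᶠ L : ℝ in atTop, 48 * L ≤ Real.exp (3 * ε / 800 * L) := by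
    have h1 := (isLittleO_rpow_exp_pos_mul_atTop 1
      (show (0 : ℝ) < 3 * ε / 800 by positivity)).bound
      (show (0 : ℝ) < 1 / 48 by norm_num)
    filter_upwards [h1, eventually_ge_atTop (1 : ℝ)] with L h2 h3
    rw [Real.norm_of_nonneg (by positivity), Real.norm_of_nonneg (Real.exp_pos _).le,
      Real.rpow_one] at h2
    linarith
  have hlim3 : ∀ᶠ L : ℝ in atTop, max 1 (Real.log G) ≤ Real.log L :=
    Real.tendsto_log_atTop.eventually_ge_atTop _
  obtain ⟨L₀, hL₀⟩ := eventually_atTop.mp (hlim.and (hlim2.and (hlim3.and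
    ((eventually_ge_atTop (5 : ℝ)).and (eventually_ge_atTop (2 * B0 / η ^ 2))))))
  refine ⟨max 4 (Real.exp L₀), le_max_left _ _, fun T hT H hH1 hHT a ha => ?_⟩
  have hT4 : 4 ≤ T := (le_max_left _ _).trans hT
  have hT0 : 0 < T := by linarith
  obtain ⟨L, hL⟩ : ∃ L : ℝ, L = Real.log T := ⟨_, rfl⟩
  have hLL₀ : L₀ ≤ L := by
    rw [hL, Real.le_log_iff_exp_le hT0]
    exact (le_max_right _ _).trans hT
  obtain ⟨f1, f2, f3, f4, f5⟩ := hL₀ L hLL₀
  have hTL : Real.exp L = T := by rw [hL, Real.exp_log hT0]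
  have hL0 : 0 < L := by linarith
  obtain ⟨z, hz⟩ : ∃ z : ℕ, z = zA A T := ⟨_, rfl⟩
  rw [← hz] at ha ⊢
  have hLA1 : 1 ≤ L ^ A := Real.one_le_rpow (by linarith) (by linarith)
  have hzL : z = ⌊L ^ A⌋₊ := by rw [hz, zA, hL]
  have hz_le : (z : ℝ) ≤ L ^ A := by rw [hzL]; exact Nat.floor_le (by positivity)
  have hz1 : 1 ≤ z := by
    rw [hzL]
    exact Nat.le_floor (by simpa using hLA1)
  have hz_ge : L ^ A / 2 ≤ z := by
    have h1 : L ^ A < z + 1 := by rw [hzL]; exact Nat.lt_floor_add_one _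
    have h2 : (1 : ℝ) ≤ z := by exact_mod_cast hz1
    linarith
  have hH0 : 0 < H := by linarith
  have hHB : (H + 2) * H ^ B ≤ 2 * Real.exp (ε / 800 * L) := by
    have h1 : H ^ (B + 1) ≤ (T ^ c) ^ (B + 1) := Real.rpow_le_rpow hH0.le hHT (by linarith)
    have h2 : (T ^ c) ^ (B + 1) = Real.exp (ε / 800 * L) := by
      rw [← Real.rpow_mul hT0.le, hcB, Real.rpow_def_of_pos hT0, hL, mul_comm]
    have h3 : H ^ (B + 1) = H * H ^ B := by
      rw [Real.rpow_add hH0, Real.rpow_one, mul_comm]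
    have h4 : 0 < H ^ B := Real.rpow_pos_of_pos hH0 _
    calc (H + 2) * H ^ B ≤ (2 * H) * H ^ B := mul_le_mul_of_nonneg_right (by linarith) h4.le
      _ = 2 * H ^ (B + 1) := by rw [h3]; ring
      _ ≤ 2 * Real.exp (ε / 800 * L) := by rw [← h2]; linarith
  obtain ⟨k, hk⟩ : ∃ k : ℕ, k = ⌈L / (50 * A * Real.log L)⌉₊ + 1 := ⟨_, rfl⟩
  have hnum := numericK (z := z) (k := k) (H := H) (B := B) hε0 hε1 hA3 hAε hη hB00 hC'0 hG f4
    ((le_max_left _ _).trans f3) ((le_max_right _ _).trans f3) f5 f1 f2 hz_le hz_ge hH0 hHB hk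
  have hHT2 : H + 2 ≤ T := by
    have h1 : 1 ≤ H ^ B := Real.one_le_rpow (by linarith) (by linarith)
    have h2 : H + 2 ≤ (H + 2) * H ^ B := le_mul_of_one_le_right (by linarith) h1
    have h3 : 1 ≤ L ^ (38 * A + 1) := Real.one_le_rpow (by linarith) (by linarith)
    have h5 : ε / 800 * L ≤ 1 / 800 * L := mul_le_mul_of_nonneg_right (by linarith) hL0.le
    have h6 : Real.exp (ε / 800 * L) ≤ Real.exp (L / 2) := Real.exp_le_exp.mpr (by linarith)
    have h7 : Real.exp (L / 2) * Real.exp (L / 2) = T := by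
      rw [← hTL, ← Real.exp_add]
      congr 1
      ring
    have h8 : 2 * Real.exp (L / 2) ≤ Real.exp (L / 2) * Real.exp (L / 2) :=
      mul_le_mul_of_nonneg_right (by linarith) (Real.exp_pos _).le
    linarith
  have hcoef := coef hε0 hC z a ha
  rw [← hC'] at hcoef
  have hsq := sum_sq (ε / 2) C' (by positivity) hC'0 z hz1
    (fun p => ((‖a p‖ * (1 + Real.log p) : ℝ) : ℂ)) hcoef
  have hab := sum_abs (ε / 2) C' (by positivity) hC'0 z hz1
    (fun p => ((‖a p‖ * (1 + Real.log p) : ℝ) : ℂ)) hcoef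
  rw [← hS0, ← hB0] at hsq
  have hnn : ∀ p ∈ Pz z, ‖((‖a p‖ * (1 + Real.log p) : ℝ) : ℂ)‖ = ‖a p‖ * (1 + Real.log p) := by
    intro p hp
    rw [Pz, Finset.mem_filter, Finset.mem_Icc] at hp
    have hp1 : (1 : ℝ) ≤ p := by exact_mod_cast (by omega : 1 ≤ p)
    have hl : 0 ≤ Real.log p := Real.log_nonneg hp1
    rw [Complex.norm_real, Real.norm_of_nonneg (by positivity)]
  obtain ⟨E, hE1, hE2, hE3⟩ := hSUP (Pz z) a ((z : ℝ) ^ 6) (B0 * (z : ℝ) ^ (-(ε / 2)))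
    (2 * C' * (z : ℝ) ^ 6) η H T k (fun p hp => (Finset.mem_filter.mp hp).2)
    (fun p hp => by
      rw [Pz, Finset.mem_filter, Finset.mem_Icc] at hp
      exact_mod_cast hp.1.2) (one_le_pow₀ (by exact_mod_cast hz1)) (by omega) hη (by linarith)
    hHT2
    (by
      refine le_trans (le_of_eq ?_) hsq
      exact Finset.sum_congr rfl fun p hp => by rw [hnn p hp])
    (by
      refine le_trans (le_of_eq ?_) hab
      exact Finset.sum_congr rfl fun p hp => by rw [hnn p hp])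
  refine ⟨E, hE1, hE2.trans ?_, hE3⟩
  rw [hTL] at hnum
  exact hnum

end Pool.Agent.Helper70.SJ
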